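import Mathlib

set_option autoImplicit false

namespace Pool.Agent.Results.MP_8e541a_co.TutteNeighbourhood

open scoped Classical
open MvPolynomial

universe u w

/-- An undirected multigraph with vertex type `V` and edge type `E`: each edge has an unordered
pair of ends (a loop is an edge whose two ends coincide; parallel edges are allowed). -/
structure Multigraph (V : Type u) (E : Type w) where
  /-- the unordered pair of ends of an edge -/
  ends : E → Sym2 V

namespace Multigraph

variable {V : Type u} {E : Type w}

/-- The simple graph underlying the spanning subgraph `(V, A)`: two distinct vertices are adjacent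
iff some edge of `A` joins them. It has the same connected components as `(V, A)`. -/
def spanning (G : Multigraph V E) (A : Finset E) : SimpleGraph V :=
  SimpleGraph.fromEdgeSet {z | ∃ e ∈ A, G.ends e = z}

/-- `k(A)`: the number of connected components of the spanning subgraph `(V, A)`. -/
noncomputable def k (G : Multigraph V E) (A : Finset E) : ℕ :=
  Nat.card (G.spanning A).ConnectedComponent

/-- `r(A) = |V| - k(A)`. -/
noncomputable def rank [Fintype V] (G : Multigraph V E) (A : Finset E) : ℕ :=
  Fintype.card V - G.k A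

/-- The Tutte polynomial `T_G(x,y) = ∑_{A ⊆ E} (x-1)^{r(E)-r(A)} (y-1)^{|A|-r(A)}`, with
`x = X 0` and `y = X 1`. -/
noncomputable def tutte [Fintype V] [Fintype E] (G : Multigraph V E) : MvPolynomial (Fin 2) ℤ :=
  ∑ A : Finset E,
    (X 0 - 1) ^ (G.rank Finset.univ - G.rank A) * (X 1 - 1) ^ (A.card - G.rank A)

/-- The equivalence relation on `V` which identifies all elements of `U` with each other and
nothing else. -/
def identify (U : Set V) : Setoid V where
  r v v' := v = v' ∨ (v ∈ U ∧ v' ∈ U)
  iseqv :=
    { refl := fun _ => Or.inl rfl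
      symm := by
        rintro a b (h | h)
        · exact Or.inl h.symm
        · exact Or.inr ⟨h.2, h.1⟩
      trans := by
        rintro a b c (h | h) (h' | h')
        · exact Or.inl (h.trans h')
        · subst h; exact Or.inr h'
        · subst h'; exact Or.inr h
        · exact Or.inr ⟨h.1, h'.2⟩ }

/-- The vertex contraction `G_{/U}`: all vertices of `U` are identified, every edge is kept, with
its ends read through the identification. -/
def contract (G : Multigraph V E) (U : Set V) : Multigraph (Quotient (identify U)) E where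
  ends e := (G.ends e).map (Quotient.mk (identify U))

/-- `G` with all its loops deleted. -/
def deleteLoops (G : Multigraph V E) : Multigraph V {e : E // ¬ (G.ends e).IsDiag} where
  ends e := G.ends e.1

/-- The neighbours of `s`, excluding `s` itself. -/
noncomputable def nbrs [Fintype V] (G : Multigraph V E) (s : V) : Finset V :=
  Finset.univ.filter fun v => v ≠ s ∧ ∃ e, G.ends e = s(s, v)

/-- `G_W`: contract `W ∪ {s}` to one vertex, then delete all loops. -/
def contractAt (G : Multigraph V E) (s : V) (W : Finset V) :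
    Multigraph (Quotient (identify (insert s (W : Set V))))
      {e : E // ¬ ((G.contract (insert s (W : Set V))).ends e).IsDiag} :=
  (G.contract (insert s (W : Set V))).deleteLoops

theorem mem_nbrs [Fintype V] (G : Multigraph V E) (s v : V) :
    v ∈ G.nbrs s ↔ v ≠ s ∧ ∃ e, G.ends e = s(s, v) := by
  rw [nbrs, Finset.mem_filter]
  exact ⟨fun h => h.2, fun h => ⟨Finset.mem_univ _, h⟩⟩

/-! ### Colourings -/

/-- The Potts partition function with `q` colours. -/
noncomputable def Z [Fintype V] [Fintype E] (G : Multigraph V E) (q : ℕ) (y : ℤ) : ℤ :=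
  ∑ σ : V → Fin q, ∏ e : E, if ((G.ends e).map σ).IsDiag then y else 1

theorem isDiag_map_iff {α β : Type*} (σ : α → β) (a b : α) :
    (Sym2.map σ s(a, b)).IsDiag ↔ σ a = σ b := by
  simp [Sym2.map_mk]

theorem spanning_adj (G : Multigraph V E) (A : Finset E) (v v' : V) :
    (G.spanning A).Adj v v' ↔ (∃ e ∈ A, G.ends e = s(v, v')) ∧ v ≠ v' := by
  simp [spanning]

theorem const_iff {C : Type*} (G : Multigraph V E) (A : Finset E) (σ : V → C) :
    (∀ e ∈ A, ((G.ends e).map σ).IsDiag) ↔ ∀ v v', (G.spanning A).Adj v v' → σ v = σ v' := by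
  constructor
  · intro h v v' hadj
    rw [spanning_adj] at hadj
    obtain ⟨⟨e, he, hee⟩, -⟩ := hadj
    have := h e he
    rw [hee, isDiag_map_iff] at this
    exact this
  · intro h e he
    induction hz : G.ends e using Sym2.ind with
    | _ a b =>
      rw [isDiag_map_iff]
      by_cases hab : a = b
      · rw [hab]
      · exact h a b ((G.spanning_adj A a b).2 ⟨⟨e, he, hz⟩, hab⟩)

theorem const_walk {C : Type*} {H : SimpleGraph V} (σ : V → C)
    (h : ∀ v v', H.Adj v v' → σ v = σ v') {v v' : V} (p : H.Walk v v') : σ v = σ v' := by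
  induction p with
  | nil => rfl
  | cons hadj _ ih => exact (h _ _ hadj).trans ih

/-- Colourings constant along the edges of `A` are functions on the components of `(V, A)`. -/
noncomputable def colouringEquiv {C : Type*} (G : Multigraph V E) (A : Finset E) :
    {σ : V → C // ∀ e ∈ A, ((G.ends e).map σ).IsDiag} ≃
      ((G.spanning A).ConnectedComponent → C) where
  toFun σ := fun c => c.lift σ.1 (fun _ _ p _ => const_walk σ.1 ((G.const_iff A σ.1).1 σ.2) p)
  invFun τ := ⟨fun v => τ ((G.spanning A).connectedComponentMk v), by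
    rw [const_iff]
    intro v v' hadj
    have : (G.spanning A).connectedComponentMk v = (G.spanning A).connectedComponentMk v' :=
      SimpleGraph.ConnectedComponent.sound hadj.reachable
    rw [this]⟩
  left_inv σ := by
    ext v
    rfl
  right_inv τ := by
    funext c
    induction c using SimpleGraph.ConnectedComponent.ind with
    | _ v => rfl

theorem card_colourings {C : Type*} [Fintype V] (G : Multigraph V E) (A : Finset E) :
    Nat.card {σ : V → C // ∀ e ∈ A, ((G.ends e).map σ).IsDiag} = Nat.card C ^ G.k A := by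
  have : Finite (G.spanning A).ConnectedComponent := Quot.finite _
  rw [Nat.card_congr (G.colouringEquiv A), Nat.card_fun, k]

theorem Z_eq [Fintype V] [Fintype E] (G : Multigraph V E) (q : ℕ) (y : ℤ) :
    G.Z q y = ∑ A : Finset E, (y - 1) ^ A.card * (q : ℤ) ^ G.k A := by
  have h1 : ∀ σ : V → Fin q, (∏ e : E, if ((G.ends e).map σ).IsDiag then y else 1)
      = ∑ A : Finset E, if ∀ e ∈ A, ((G.ends e).map σ).IsDiag then (y - 1) ^ A.card else 0 := by
    intro σ
    have h2 : ∀ e : E, (if ((G.ends e).map σ).IsDiag then y else 1)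
        = 1 + (if ((G.ends e).map σ).IsDiag then y - 1 else 0) := by
      intro e; split_ifs <;> ring
    simp_rw [h2]
    rw [Finset.prod_one_add, Finset.powerset_univ]
    refine Finset.sum_congr rfl fun A _ => ?_
    split_ifs with h
    · rw [Finset.prod_congr rfl (fun e he => if_pos (h e he)), Finset.prod_const]
    · push Not at h
      obtain ⟨e, he, hne⟩ := h
      exact Finset.prod_eq_zero he (if_neg hne)
  rw [Z]
  simp_rw [h1]
  rw [Finset.sum_comm]
  refine Finset.sum_congr rfl fun A _ => ?_
  rw [← Finset.sum_filter, Finset.sum_const, nsmul_eq_mul, mul_comm]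
  congr 1
  have h3 := G.card_colourings (C := Fin q) A
  rw [Nat.subtype_card (Finset.univ.filter fun σ : V → Fin q =>
    ∀ e ∈ A, ((G.ends e).map σ).IsDiag) (by simp), Nat.card_eq_fintype_card, Fintype.card_fin] at h3
  rw [← Nat.cast_pow, ← h3]

theorem k_le_card [Fintype V] (G : Multigraph V E) (A : Finset E) : G.k A ≤ Fintype.card V := by
  rw [k, ← Nat.card_eq_fintype_card]
  exact Nat.card_le_card_of_surjective (G.spanning A).connectedComponentMk
    (fun c => by
      induction c using SimpleGraph.ConnectedComponent.ind with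
      | _ v => exact ⟨v, rfl⟩)

theorem k_anti [Fintype V] (G : Multigraph V E) {A B : Finset E} (h : A ⊆ B) :
    G.k B ≤ G.k A := by
  apply SimpleGraph.ConnectedComponent.card_le_card_of_le
  intro v v' hadj
  rw [spanning_adj] at hadj ⊢
  obtain ⟨⟨e, he, hee⟩, hne⟩ := hadj
  exact ⟨⟨e, h he, hee⟩, hne⟩

theorem card_le_k_add [Fintype V] (G : Multigraph V E) (A : Finset E) :
    Fintype.card V ≤ G.k A + A.card := by
  -- rank-nullity over `ZMod 2`
  let L : (V → ZMod 2) →ₗ[ZMod 2] (A → ZMod 2) :=
    { toFun := fun σ e => Sym2.lift ⟨fun a b => σ a + σ b, fun a b => add_comm _ _⟩ (G.ends e.1)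
      map_add' := by
        intro σ τ
        funext e
        induction hz : G.ends e.1 using Sym2.ind with
        | _ a b =>
          simp only [Pi.add_apply, hz, Sym2.lift_mk]
          ring
      map_smul' := by
        intro c σ
        funext e
        induction hz : G.ends e.1 using Sym2.ind with
        | _ a b =>
          simp only [Pi.smul_apply, hz, Sym2.lift_mk, smul_eq_mul, RingHom.id_apply]
          ring }
  have hker : Nat.card (LinearMap.ker L) = 2 ^ G.k A := by
    have h := G.card_colourings (C := ZMod 2) A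
    rw [Nat.card_zmod] at h
    rw [← h]
    refine Nat.card_congr (Equiv.subtypeEquivRight ?_)
    intro σ
    rw [LinearMap.mem_ker]
    constructor
    · intro hσ e he
      have := congrFun hσ ⟨e, he⟩
      induction hz : G.ends e using Sym2.ind with
      | _ a b =>
        rw [isDiag_map_iff]
        simp only [L, LinearMap.coe_mk, AddHom.coe_mk, hz, Sym2.lift_mk, Pi.zero_apply] at this
        have h2 := CharTwo.add_eq_zero.1 this
        exact h2
    · intro hσ
      funext e
      have := hσ e.1 e.2
      induction hz : G.ends e.1 using Sym2.ind with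
      | _ a b =>
        rw [hz, isDiag_map_iff] at this
        simp only [L, LinearMap.coe_mk, AddHom.coe_mk, hz, Sym2.lift_mk, Pi.zero_apply]
        exact CharTwo.add_eq_zero.2 this
  have h1 := Module.card_eq_pow_finrank (K := ZMod 2) (V := LinearMap.ker L)
  rw [← Nat.card_eq_fintype_card, hker, ZMod.card] at h1
  have h2 : G.k A = Module.finrank (ZMod 2) (LinearMap.ker L) :=
    Nat.pow_right_injective (le_refl 2) h1
  have h3 := L.finrank_range_add_finrank_ker
  have h4 : Module.finrank (ZMod 2) (LinearMap.range L) ≤ A.card := by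
    calc Module.finrank (ZMod 2) (LinearMap.range L)
        ≤ Module.finrank (ZMod 2) (A → ZMod 2) := Submodule.finrank_le _
      _ = A.card := by rw [Module.finrank_fintype_fun_eq_card, Fintype.card_coe]
  rw [Module.finrank_fintype_fun_eq_card] at h3
  omega

theorem eval_tutte [Fintype V] [Fintype E] (G : Multigraph V E) (q : ℕ) (p : Fin 2 → ℤ)
    (hq : (q : ℤ) = (p 0 - 1) * (p 1 - 1)) :
    (p 0 - 1) ^ G.k Finset.univ * (p 1 - 1) ^ Fintype.card V * eval p G.tutte = G.Z q (p 1) := by
  rw [Z_eq, tutte, map_sum, Finset.mul_sum]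
  refine Finset.sum_congr rfl fun A _ => ?_
  simp only [map_mul, map_pow, map_sub, eval_X, map_one]
  rw [hq, mul_pow]
  have h1 := G.k_le_card A
  have h2 := G.k_anti (Finset.subset_univ A)
  have h3 := G.card_le_k_add A
  have e1 : G.k Finset.univ + (G.rank Finset.univ - G.rank A) = G.k A := by
    simp only [rank]; omega
  have e2 : Fintype.card V + (A.card - G.rank A) = A.card + G.k A := by
    simp only [rank]; omega
  calc (p 0 - 1) ^ G.k Finset.univ * (p 1 - 1) ^ Fintype.card V *
        ((p 0 - 1) ^ (G.rank Finset.univ - G.rank A) * (p 1 - 1) ^ (A.card - G.rank A))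
      = (p 0 - 1) ^ (G.k Finset.univ + (G.rank Finset.univ - G.rank A)) *
        (p 1 - 1) ^ (Fintype.card V + (A.card - G.rank A)) := by
          rw [pow_add, pow_add]; ring
    _ = (p 1 - 1) ^ A.card * ((p 0 - 1) ^ G.k A * (p 1 - 1) ^ G.k A) := by
          rw [e1, e2, pow_add]; ring

/-! ### Connectedness -/

theorem k_eq_one_of_connected (G : Multigraph V E) {A : Finset E} (h : (G.spanning A).Connected) :
    G.k A = 1 := by
  have h1 : Subsingleton (G.spanning A).ConnectedComponent :=
    h.preconnected.subsingleton_connectedComponent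
  have h2 : Nonempty (G.spanning A).ConnectedComponent :=
    ⟨(G.spanning A).connectedComponentMk h.nonempty.some⟩
  rw [k, Nat.card_eq_one_iff_unique]
  exact ⟨h1, h2⟩

theorem contractAt_connected [Fintype E] (G : Multigraph V E) (s : V) (W : Finset V)
    (h : (G.spanning Finset.univ).Connected) :
    ((G.contractAt s W).spanning Finset.univ).Connected := by
  have key : ∀ {v v' : V}, (G.spanning Finset.univ).Walk v v' →
      ((G.contractAt s W).spanning Finset.univ).Reachable
        (Quotient.mk (identify (insert s (W : Set V))) v)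
        (Quotient.mk (identify (insert s (W : Set V))) v') := by
    intro v v' p
    induction p with
    | nil => exact SimpleGraph.Reachable.refl _
    | @cons a b c hadj _ ih =>
      refine SimpleGraph.Reachable.trans ?_ ih
      by_cases hab : Quotient.mk (identify (insert s (W : Set V))) a
          = Quotient.mk (identify (insert s (W : Set V))) b
      · rw [hab]
      · apply SimpleGraph.Adj.reachable
        rw [spanning_adj] at hadj ⊢
        obtain ⟨⟨e, -, he⟩, -⟩ := hadj
        have hc : (G.contract (insert s (W : Set V))).ends e =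
            s(Quotient.mk (identify (insert s (W : Set V))) a,
              Quotient.mk (identify (insert s (W : Set V))) b) := by
          change (G.ends e).map _ = _
          rw [he, Sym2.map_mk]
        refine ⟨⟨⟨e, ?_⟩, Finset.mem_univ _, ?_⟩, hab⟩
        · rw [hc, Sym2.mk_isDiag_iff]
          exact hab
        · exact hc
  have hne : Nonempty V := h.nonempty
  have : Nonempty (Quotient (identify (insert s (W : Set V)))) :=
    ⟨Quotient.mk _ hne.some⟩
  refine SimpleGraph.Connected.mk ?_
  intro a b
  induction a using Quotient.ind with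
  | _ a =>
    induction b using Quotient.ind with
    | _ b =>
      obtain ⟨p⟩ := h.preconnected a b
      exact key p

theorem mk_eq_iff (U : Set V) (v v' : V) :
    Quotient.mk (identify U) v = Quotient.mk (identify U) v' ↔ v = v' ∨ (v ∈ U ∧ v' ∈ U) :=
  Quotient.eq

theorem card_quotient [Fintype V] (s : V) (W : Finset V) (hs : s ∉ W) :
    Fintype.card (Quotient (identify (insert s (W : Set V)))) + W.card = Fintype.card V := by
  have h1 : Fintype.card (Quotient (identify (insert s (W : Set V))))
      = Fintype.card {v : V // v ∉ W} := by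
    symm
    refine Fintype.card_of_bijective
      (f := fun v : {v : V // v ∉ W} => Quotient.mk (identify (insert s (W : Set V))) v.1) ?_
    constructor
    · rintro ⟨v, hv⟩ ⟨v', hv'⟩ h
      rw [mk_eq_iff] at h
      rcases h with h | ⟨h, h'⟩
      · exact Subtype.ext h
      · have e1 : v = s := by
          rcases h with h | h
          · exact h
          · exact absurd h hv
        have e2 : v' = s := by
          rcases h' with h' | h'
          · exact h'
          · exact absurd h' hv'
        exact Subtype.ext (e1.trans e2.symm)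
    · intro c
      induction c using Quotient.ind with
      | _ v =>
        by_cases hv : v ∈ W
        · refine ⟨⟨s, hs⟩, ?_⟩
          rw [mk_eq_iff]
          exact Or.inr ⟨Or.inl rfl, Or.inr hv⟩
        · exact ⟨⟨v, hv⟩, rfl⟩
  rw [h1, Fintype.card_subtype_compl (fun v => v ∈ W), Fintype.card_coe]
  have := Finset.card_le_univ W
  omega

/-! ### The main identity for partition functions -/

/-- The edges joining `s` to `u`. -/
noncomputable def between [Fintype E] (G : Multigraph V E) (s u : V) : Finset E :=
  Finset.univ.filter fun e => G.ends e = s(s, u)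

/-- The edges joining `s` to a vertex of `W`. -/
noncomputable def star [Fintype E] (G : Multigraph V E) (s : V) (W : Finset V) : Finset E :=
  W.biUnion (G.between s)

/-- The number of edges outside `star s W` which become loops when `W ∪ {s}` is contracted. -/
noncomputable def extra [Fintype E] (G : Multigraph V E) (s : V) (W : Finset V) : ℕ :=
  (Finset.univ.filter fun e : E =>
    ((G.contract (insert s (W : Set V))).ends e).IsDiag ∧ e ∉ G.star s W).card

/-- The weight of a single edge in a colouring. -/
noncomputable def wt {q : ℕ} (G : Multigraph V E) (y : ℤ) (σ : V → Fin q) (e : E) : ℤ :=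
  if ((G.ends e).map σ).IsDiag then y else 1

theorem mem_between [Fintype E] (G : Multigraph V E) (s u : V) (e : E) :
    e ∈ G.between s u ↔ G.ends e = s(s, u) := by
  simp [between]

theorem mem_star [Fintype E] (G : Multigraph V E) (s : V) (W : Finset V) (e : E) :
    e ∈ G.star s W ↔ ∃ u ∈ W, G.ends e = s(s, u) := by
  simp [star, mem_between]

theorem prod_between [Fintype E] {q : ℕ} (G : Multigraph V E) (y : ℤ) (σ : V → Fin q) (s u : V) :
    ∏ e ∈ G.between s u, G.wt y σ e = if σ u = σ s then y ^ (G.between s u).card else 1 := by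
  have h : ∀ e ∈ G.between s u, G.wt y σ e = if σ u = σ s then y else 1 := by
    intro e he
    rw [mem_between] at he
    rw [wt, he]
    congr 1
    rw [isDiag_map_iff]
    exact propext eq_comm
  rw [Finset.prod_congr rfl h, Finset.prod_const]
  split_ifs
  · rfl
  · exact one_pow _

theorem prod_star [Fintype E] {q : ℕ} (G : Multigraph V E) (y : ℤ) (σ : V → Fin q) (s : V)
    (W : Finset V) :
    ∏ e ∈ G.star s W, G.wt y σ e
      = ∏ u ∈ W, if σ u = σ s then y ^ (G.between s u).card else 1 := by
  rw [star, Finset.prod_biUnion]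
  · exact Finset.prod_congr rfl fun u _ => G.prod_between y σ s u
  · intro u _ u' _ hne
    rw [Function.onFun, Finset.disjoint_left]
    intro e he he'
    rw [mem_between] at he he'
    exact hne (Sym2.congr_right.1 (he.symm.trans he'))

/-- The weighted sum over all colourings which are constant on `W ∪ {s}`. -/
noncomputable def F [Fintype V] [Fintype E] (G : Multigraph V E) (s : V) (N : Finset V) (q : ℕ)
    (y : ℤ) (W : Finset V) : ℤ :=
  ∑ σ : V → Fin q, (∏ e ∈ Finset.univ \ G.star s N, G.wt y σ e) *
    ((∏ u ∈ W, if σ u = σ s then 1 else 0) *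
      ∏ u ∈ N \ W, if σ u = σ s then y ^ (G.between s u).card else 1)

theorem star_mono [Fintype E] (G : Multigraph V E) (s : V) {W N : Finset V} (h : W ⊆ N) :
    G.star s W ⊆ G.star s N := Finset.biUnion_subset_biUnion_of_subset_left _ h

theorem isDiag_contract_of_mem_star [Fintype E] (G : Multigraph V E) (s : V) (W : Finset V)
    {e : E} (he : e ∈ G.star s W) : ((G.contract (insert s (W : Set V))).ends e).IsDiag := by
  rw [mem_star] at he
  obtain ⟨u, hu, he⟩ := he
  change ((G.ends e).map _).IsDiag
  rw [he, isDiag_map_iff, mk_eq_iff]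
  exact Or.inr ⟨Or.inl rfl, Or.inr hu⟩

theorem wt_of_loop {q : ℕ} (G : Multigraph V E) (y : ℤ) (s : V) (W : Finset V)
    (σ : V → Fin q) (hσ : ∀ u ∈ W, σ u = σ s) (e : E)
    (he : ((G.contract (insert s (W : Set V))).ends e).IsDiag) : G.wt y σ e = y := by
  have h2 : ∀ v ∈ (insert s (W : Set V)), σ v = σ s := by
    rintro v (hv | hv)
    · rw [hv]
    · exact hσ v hv
  rw [wt]
  refine if_pos ?_
  change ((G.ends e).map _).IsDiag at he
  induction hz : G.ends e using Sym2.ind with
  | _ a b =>
    rw [hz, isDiag_map_iff, mk_eq_iff] at he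
    rw [isDiag_map_iff]
    rcases he with he | ⟨ha, hb⟩
    · rw [he]
    · rw [h2 a ha, h2 b hb]

theorem prod_nonloops [Fintype E] {q : ℕ} (G : Multigraph V E) (y : ℤ) (s : V)
    {W N : Finset V} (hWN : W ⊆ N) (σ : V → Fin q) (hσ : ∀ u ∈ W, σ u = σ s) :
    (∏ e : {e : E // ¬ ((G.contract (insert s (W : Set V))).ends e).IsDiag}, G.wt y σ e.1) *
        y ^ G.extra s W
      = (∏ e ∈ Finset.univ \ G.star s N, G.wt y σ e) *
        ∏ u ∈ N \ W, if σ u = σ s then y ^ (G.between s u).card else 1 := by
  have h1 : (∏ e : {e : E // ¬ ((G.contract (insert s (W : Set V))).ends e).IsDiag},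
      G.wt y σ e.1) = ∏ e ∈ Finset.univ.filter
        (fun e : E => ¬ ((G.contract (insert s (W : Set V))).ends e).IsDiag), G.wt y σ e := by
    rw [← Finset.prod_subtype (Finset.univ.filter
        (fun e : E => ¬ ((G.contract (insert s (W : Set V))).ends e).IsDiag)) (by simp)
        (fun e => G.wt y σ e)]
  have h2 : y ^ G.extra s W = ∏ e ∈ Finset.univ.filter (fun e : E =>
      ((G.contract (insert s (W : Set V))).ends e).IsDiag ∧ e ∉ G.star s W), G.wt y σ e := by
    rw [Finset.prod_congr rfl (g := fun _ => y), Finset.prod_const, extra]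
    intro e he
    exact G.wt_of_loop y s W σ hσ e (Finset.mem_filter.1 he).2.1
  have h3 : (∏ u ∈ N \ W, if σ u = σ s then y ^ (G.between s u).card else 1)
      = ∏ e ∈ G.star s (N \ W), G.wt y σ e := (G.prod_star y σ s (N \ W)).symm
  rw [h1, h2, h3, ← Finset.prod_union, ← Finset.prod_union]
  · refine Finset.prod_congr ?_ fun _ _ => rfl
    ext e
    simp only [Finset.mem_union, Finset.mem_filter, Finset.mem_univ, true_and,
      Finset.mem_sdiff]
    constructor
    · intro h
      have hW : e ∉ G.star s W := by
        rcases h with h | h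
        · exact fun hc => h (G.isDiag_contract_of_mem_star s W hc)
        · exact h.2
      by_cases hN : e ∈ G.star s N
      · right
        rw [mem_star] at hN ⊢
        obtain ⟨u, hu, hu'⟩ := hN
        refine ⟨u, ?_, hu'⟩
        rw [Finset.mem_sdiff]
        refine ⟨hu, fun hc => hW ?_⟩
        rw [mem_star]
        exact ⟨u, hc, hu'⟩
      · exact Or.inl hN
    · intro h
      have hW : e ∉ G.star s W := by
        rcases h with h | h
        · exact fun hc => h (G.star_mono s hWN hc)
        · rw [mem_star] at h ⊢
          rintro ⟨u', hu', he'⟩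
          obtain ⟨u, hu, he⟩ := h
          rw [he] at he'
          have : u = u' := Sym2.congr_right.1 he'
          rw [Finset.mem_sdiff] at hu
          exact hu.2 (this ▸ hu')
      by_cases hd : ((G.contract (insert s (W : Set V))).ends e).IsDiag
      · exact Or.inr ⟨hd, hW⟩
      · exact Or.inl hd
  · rw [Finset.disjoint_left]
    intro e he he'
    exact (Finset.mem_sdiff.1 he).2 (G.star_mono s Finset.sdiff_subset he')
  · rw [Finset.disjoint_left]
    intro e he he'
    exact (Finset.mem_filter.1 he).2 (Finset.mem_filter.1 he').2.1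

/-- Colourings of the contraction are the colourings constant on `W ∪ {s}`. -/
theorem sum_quotient {q : ℕ} [Fintype V] (s : V) (W : Finset V)
    (g : (V → Fin q) → ℤ) :
    ∑ τ : Quotient (identify (insert s (W : Set V))) → Fin q,
        g (fun v => τ (Quotient.mk _ v))
      = ∑ σ : V → Fin q, if ∀ u ∈ W, σ u = σ s then g σ else 0 := by
  rw [← Finset.sum_filter]
  refine Finset.sum_bij'
    (i := fun τ _ => fun v => τ (Quotient.mk _ v))
    (j := fun σ hσ => fun c => Quotient.lift (s := identify (insert s (W : Set V))) σ (by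
      intro a b hab
      have h1 := (Finset.mem_filter.1 hσ).2
      have h2 : ∀ v ∈ (insert s (W : Set V)), σ v = σ s := by
        rintro v (hv | hv)
        · rw [hv]
        · exact h1 v hv
      rcases hab with hab | ⟨ha, hb⟩
      · rw [hab]
      · rw [h2 a ha, h2 b hb]) c) ?_ ?_ ?_ ?_ ?_
  · intro τ _
    rw [Finset.mem_filter]
    refine ⟨Finset.mem_univ _, fun u hu => ?_⟩
    have : Quotient.mk (identify (insert s (W : Set V))) u = Quotient.mk _ s := by
      rw [mk_eq_iff]
      exact Or.inr ⟨Or.inr hu, Or.inl rfl⟩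
    change τ _ = τ _
    rw [this]
  · intro σ _
    exact Finset.mem_univ _
  · intro τ _
    funext c
    induction c using Quotient.ind with
    | _ v => rfl
  · intro σ _
    rfl
  · intro τ _
    rfl

theorem F_eq [Fintype V] [Fintype E] (G : Multigraph V E) (s : V) {N W : Finset V}
    (hWN : W ⊆ N) (q : ℕ) (y : ℤ) :
    (G.contractAt s W).Z q y * y ^ G.extra s W = G.F s N q y W := by
  have h1 : (G.contractAt s W).Z q y = ∑ σ : V → Fin q, if ∀ u ∈ W, σ u = σ s then
      ∏ e : {e : E // ¬ ((G.contract (insert s (W : Set V))).ends e).IsDiag}, G.wt y σ e.1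
      else 0 := by
    rw [← sum_quotient s W (fun σ =>
      ∏ e : {e : E // ¬ ((G.contract (insert s (W : Set V))).ends e).IsDiag}, G.wt y σ e.1), Z]
    refine Finset.sum_congr (Finset.ext fun _ => by simp) fun τ _ => ?_
    refine Finset.prod_congr rfl fun e _ => ?_
    change (if (((G.ends e.1).map (Quotient.mk _)).map τ).IsDiag then y else 1) = _
    rw [Sym2.map_map, wt]
    rfl
  rw [h1, F, Finset.sum_mul]
  refine Finset.sum_congr rfl fun σ _ => ?_
  split_ifs with hσ
  · rw [G.prod_nonloops y s hWN σ hσ, Finset.prod_congr rfl (fun u hu => if_pos (hσ u hu)),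
      Finset.prod_const_one, one_mul]
  · push Not at hσ
    obtain ⟨u, hu, hne⟩ := hσ
    rw [Finset.prod_eq_zero hu (if_neg hne), zero_mul, zero_mul, mul_zero]

theorem F_empty [Fintype V] [Fintype E] (G : Multigraph V E) (s : V) (N : Finset V)
    (q : ℕ) (y : ℤ) : G.F s N q y ∅ = G.Z q y := by
  rw [F, Z]
  refine Finset.sum_congr rfl fun σ _ => ?_
  rw [Finset.prod_empty, one_mul, Finset.sdiff_empty, ← G.prod_star y σ s N,
    Finset.prod_sdiff (Finset.subset_univ _)]
  rfl

/-- First summation: over all subsets of `N`. -/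
theorem sum_all [Fintype V] [Fintype E] (G : Multigraph V E) (s : V) (N : Finset V)
    (q : ℕ) (y : ℤ) :
    ∑ W ∈ N.powerset, (∏ u ∈ W, (1 - y ^ (G.between s u).card)) * G.F s N q y W
      = ∑ σ : V → Fin q, ∏ e ∈ Finset.univ \ G.star s N, G.wt y σ e := by
  simp only [F, Finset.mul_sum]
  rw [Finset.sum_comm]
  refine Finset.sum_congr rfl fun σ _ => ?_
  have h1 : ∏ u ∈ N, ((if σ u = σ s then (1 - y ^ (G.between s u).card) else 0) +
      (if σ u = σ s then y ^ (G.between s u).card else 1)) = 1 := by
    refine Finset.prod_eq_one fun u _ => ?_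
    split_ifs <;> ring
  rw [Finset.prod_add] at h1
  calc ∑ W ∈ N.powerset, (∏ u ∈ W, (1 - y ^ (G.between s u).card)) *
        ((∏ e ∈ Finset.univ \ G.star s N, G.wt y σ e) *
          ((∏ u ∈ W, if σ u = σ s then 1 else 0) *
            ∏ u ∈ N \ W, if σ u = σ s then y ^ (G.between s u).card else 1))
      = ∑ W ∈ N.powerset, (∏ e ∈ Finset.univ \ G.star s N, G.wt y σ e) *
          ((∏ u ∈ W, if σ u = σ s then (1 - y ^ (G.between s u).card) else 0) *
            ∏ u ∈ N \ W, if σ u = σ s then y ^ (G.between s u).card else 1) := by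
        refine Finset.sum_congr rfl fun W _ => ?_
        have : (∏ u ∈ W, if σ u = σ s then (1 - y ^ (G.between s u).card) else 0)
            = (∏ u ∈ W, (1 - y ^ (G.between s u).card)) *
              ∏ u ∈ W, if σ u = σ s then (1 : ℤ) else 0 := by
          rw [← Finset.prod_mul_distrib]
          refine Finset.prod_congr rfl fun u _ => ?_
          split_ifs <;> ring
        rw [this]
        ring
    _ = ∏ e ∈ Finset.univ \ G.star s N, G.wt y σ e := by
        rw [← Finset.mul_sum, h1, mul_one]

/-- Second summation: over the subsets of `N` containing a fixed `u₀`. -/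
theorem sum_containing [Fintype V] [Fintype E] (G : Multigraph V E) (s : V) (N : Finset V)
    (q : ℕ) (y : ℤ) (u₀ : V) :
    ∑ W ∈ (N.erase u₀).powerset, (∏ u ∈ W, (1 - y ^ (G.between s u).card)) *
        G.F s N q y (insert u₀ W)
      = ∑ σ : V → Fin q, if σ u₀ = σ s then
          ∏ e ∈ Finset.univ \ G.star s N, G.wt y σ e else 0 := by
  simp only [F, Finset.mul_sum]
  rw [Finset.sum_comm]
  refine Finset.sum_congr rfl fun σ _ => ?_
  have h1 : ∏ u ∈ N.erase u₀, ((if σ u = σ s then (1 - y ^ (G.between s u).card) else 0) +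
      (if σ u = σ s then y ^ (G.between s u).card else 1)) = 1 := by
    refine Finset.prod_eq_one fun u _ => ?_
    split_ifs <;> ring
  rw [Finset.prod_add] at h1
  calc ∑ W ∈ (N.erase u₀).powerset, (∏ u ∈ W, (1 - y ^ (G.between s u).card)) *
        ((∏ e ∈ Finset.univ \ G.star s N, G.wt y σ e) *
          ((∏ u ∈ insert u₀ W, if σ u = σ s then 1 else 0) *
            ∏ u ∈ N \ insert u₀ W, if σ u = σ s then y ^ (G.between s u).card else 1))
      = ∑ W ∈ (N.erase u₀).powerset, (if σ u₀ = σ s then
          (∏ e ∈ Finset.univ \ G.star s N, G.wt y σ e) else 0) *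
          ((∏ u ∈ W, if σ u = σ s then (1 - y ^ (G.between s u).card) else 0) *
            ∏ u ∈ N.erase u₀ \ W, if σ u = σ s then y ^ (G.between s u).card else 1) := by
        refine Finset.sum_congr rfl fun W hW => ?_
        have hW' : u₀ ∉ W := fun hc =>
          absurd (Finset.mem_powerset.1 hW hc) (Finset.notMem_erase u₀ N)
        have h2 : (∏ u ∈ W, if σ u = σ s then (1 - y ^ (G.between s u).card) else 0)
            = (∏ u ∈ W, (1 - y ^ (G.between s u).card)) *
              ∏ u ∈ W, if σ u = σ s then (1 : ℤ) else 0 := by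
          rw [← Finset.prod_mul_distrib]
          refine Finset.prod_congr rfl fun u _ => ?_
          split_ifs <;> ring
        have h3 : N \ insert u₀ W = N.erase u₀ \ W := by
          ext v
          simp only [Finset.mem_sdiff, Finset.mem_insert, Finset.mem_erase, not_or]
          tauto
        rw [h2, h3, Finset.prod_insert hW']
        split_ifs <;> ring
    _ = if σ u₀ = σ s then ∏ e ∈ Finset.univ \ G.star s N, G.wt y σ e else 0 := by
        rw [← Finset.mul_sum, h1, mul_one]

/-- The weight away from `s` does not depend on the colour of `s`. -/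
theorem wt_update [Fintype V] [Fintype E] {q : ℕ} (G : Multigraph V E) (s : V) (y : ℤ)
    (σ : V → Fin q) (c : Fin q) (e : E) (he : e ∉ G.star s (G.nbrs s)) :
    G.wt y (Function.update σ s c) e = G.wt y σ e := by
  rw [wt, wt]
  congr 1
  rw [mem_star] at he
  push Not at he
  induction hz : G.ends e using Sym2.ind with
  | _ a b =>
    rw [isDiag_map_iff, isDiag_map_iff]
    by_cases ha : a = s
    · by_cases hb : b = s
      · rw [ha, hb]
        simp
      · exfalso
        refine he b ?_ ?_
        · rw [mem_nbrs]
          refine ⟨hb, e, ?_⟩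
          rw [hz, ha]
        · rw [hz, ha]
    · by_cases hb : b = s
      · exfalso
        refine he a ?_ ?_
        · rw [mem_nbrs]
          refine ⟨ha, e, ?_⟩
          rw [hz, hb, Sym2.eq_swap]
        · rw [hz, hb, Sym2.eq_swap]
      · rw [Function.update_of_ne ha, Function.update_of_ne hb]

theorem sum_update [Fintype V] [Fintype E] (G : Multigraph V E) (s : V) (q : ℕ) (y : ℤ)
    (u₀ : V) (hu₀ : u₀ ≠ s) :
    ∑ σ : V → Fin q, ∏ e ∈ Finset.univ \ G.star s (G.nbrs s), G.wt y σ e
      = (q : ℤ) * ∑ σ : V → Fin q, if σ u₀ = σ s then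
          ∏ e ∈ Finset.univ \ G.star s (G.nbrs s), G.wt y σ e else 0 := by
  have h1 : (q : ℤ) * ∑ σ : V → Fin q, (if σ u₀ = σ s then
          ∏ e ∈ Finset.univ \ G.star s (G.nbrs s), G.wt y σ e else 0)
      = ∑ p ∈ (Finset.univ.filter fun σ : V → Fin q => σ u₀ = σ s) ×ˢ
          (Finset.univ : Finset (Fin q)),
          ∏ e ∈ Finset.univ \ G.star s (G.nbrs s), G.wt y p.1 e := by
    rw [Finset.sum_product, ← Finset.sum_filter, Finset.mul_sum]
    refine Finset.sum_congr rfl fun σ _ => ?_
    change _ = ∑ _c : Fin q, ∏ e ∈ Finset.univ \ G.star s (G.nbrs s), G.wt y σ e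
    rw [Finset.sum_const, Finset.card_univ, Fintype.card_fin, nsmul_eq_mul]
  rw [h1]
  symm
  refine Finset.sum_bij' (i := fun p _ => Function.update p.1 s p.2)
    (j := fun τ _ => (Function.update τ s (τ u₀), τ s)) ?_ ?_ ?_ ?_ ?_
  · intro p _
    exact Finset.mem_univ _
  · intro τ _
    rw [Finset.mem_product, Finset.mem_filter]
    refine ⟨⟨Finset.mem_univ _, ?_⟩, Finset.mem_univ _⟩
    change Function.update τ s (τ u₀) u₀ = Function.update τ s (τ u₀) s
    rw [Function.update_of_ne hu₀, Function.update_self]
  · rintro ⟨σ, c⟩ hp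
    rw [Finset.mem_product, Finset.mem_filter] at hp
    have h2 : σ u₀ = σ s := hp.1.2
    refine Prod.ext ?_ ?_
    · change Function.update (Function.update σ s c) s (Function.update σ s c u₀) = σ
      rw [Function.update_of_ne hu₀, Function.update_idem, h2, Function.update_eq_self]
    · change Function.update σ s c s = c
      rw [Function.update_self]
  · intro τ _
    change Function.update (Function.update τ s (τ u₀)) s (τ s) = τ
    rw [Function.update_idem, Function.update_eq_self]
  · rintro ⟨σ, c⟩ _
    refine Finset.prod_congr rfl fun e he => ?_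
    exact (G.wt_update s y σ c e (Finset.mem_sdiff.1 he).2).symm

/-! ### The coefficients -/

/-- The coefficient polynomial of `T_{G_W}`. -/
noncomputable def coeff [Fintype E] (G : Multigraph V E) (s u₀ : V) (W : Finset V) :
    MvPolynomial (Fin 2) ℤ :=
  (-1) ^ (W.card + 1) * (∏ u ∈ W, ∑ i ∈ Finset.range (G.between s u).card, X 1 ^ i) *
      X 1 ^ G.extra s W +
    if u₀ ∈ W then
      (X 0 - 1) * ((-1) ^ (W.card + 1) *
        (∏ u ∈ W.erase u₀, ∑ i ∈ Finset.range (G.between s u).card, X 1 ^ i) *
        X 1 ^ G.extra s W)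
    else 0

theorem eval_identity [Fintype V] [Fintype E] (G : Multigraph V E)
    (hconn : (G.spanning Finset.univ).Connected) (s u₀ : V) (hu₀ : u₀ ∈ G.nbrs s)
    (p : Fin 2 → ℤ) (hp0 : 2 ≤ p 0) (hp1 : 2 ≤ p 1) :
    eval p G.tutte = eval p (∑ W ∈ (G.nbrs s).powerset with W.Nonempty,
      G.coeff s u₀ W * (G.contractAt s W).tutte) := by
  set N := G.nbrs s with hN
  set x := p 0 with hx
  set y := p 1 with hy
  have hu₀s : u₀ ≠ s := ((G.mem_nbrs s u₀).1 hu₀).1
  have hsN : s ∉ N := fun h => ((G.mem_nbrs s s).1 h).1 rfl
  obtain ⟨q, hq⟩ : ∃ q : ℕ, (q : ℤ) = (x - 1) * (y - 1) :=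
    ⟨((x - 1) * (y - 1)).toNat, Int.toNat_of_nonneg (by nlinarith)⟩
  -- the partition functions in terms of Tutte polynomials
  have hZG : G.Z q y = (x - 1) * (y - 1) ^ Fintype.card V * eval p G.tutte := by
    rw [← G.eval_tutte q p hq, G.k_eq_one_of_connected hconn, pow_one]
  have hF : ∀ W, W ⊆ N → (y - 1) ^ W.card * G.F s N q y W =
      (x - 1) * (y - 1) ^ Fintype.card V * (y ^ G.extra s W * eval p (G.contractAt s W).tutte) := by
    intro W hW
    rw [← G.F_eq s hW, ← (G.contractAt s W).eval_tutte q p hq,
      (G.contractAt s W).k_eq_one_of_connected (G.contractAt_connected s W hconn), pow_one,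
      ← card_quotient s W (fun h => hsN (hW h)), pow_add]
    ring
  -- abbreviations
  set D : ℤ := (x - 1) * (y - 1) ^ Fintype.card V with hD
  have hD0 : D ≠ 0 := by
    have h1 : x - 1 ≠ 0 := by omega
    have h2 : y - 1 ≠ 0 := by omega
    exact mul_ne_zero h1 (pow_ne_zero _ h2)
  let g : Finset V → ℤ := fun W => ∏ u ∈ W, ∑ i ∈ Finset.range (G.between s u).card, y ^ i
  let T : Finset V → ℤ := fun W => y ^ G.extra s W * eval p (G.contractAt s W).tutte
  have hc : ∀ W : Finset V, ∏ u ∈ W, (1 - y ^ (G.between s u).card)
      = (-1) ^ W.card * (y - 1) ^ W.card * g W := by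
    intro W
    rw [← Finset.prod_const, ← Finset.prod_const, ← Finset.prod_mul_distrib,
      ← Finset.prod_mul_distrib]
    refine Finset.prod_congr rfl fun u _ => ?_
    rw [mul_assoc, mul_geom_sum]
    ring
  have hA := G.sum_all s N q y
  have hB := G.sum_containing s N q y u₀
  have hC := G.sum_update s q y u₀ hu₀s
  rw [← hN, ← hA, ← hB] at hC
  -- rewrite both sides
  have hC1 : ∑ W ∈ N.powerset, (∏ u ∈ W, (1 - y ^ (G.between s u).card)) * G.F s N q y W
      = G.Z q y + ∑ W ∈ N.powerset, if W.Nonempty then D * ((-1) ^ W.card * g W * T W) else 0 := by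
    rw [← Finset.sum_erase_add _ _ (Finset.empty_mem_powerset N),
      ← Finset.sum_erase_add N.powerset (fun W => if W.Nonempty then
        D * ((-1) ^ W.card * g W * T W) else 0) (Finset.empty_mem_powerset N)]
    rw [Finset.prod_empty, one_mul, F_empty, if_neg Finset.not_nonempty_empty, add_zero, add_comm]
    congr 1
    refine Finset.sum_congr rfl fun W hW => ?_
    rw [Finset.mem_erase, Finset.mem_powerset] at hW
    rw [if_pos (Finset.nonempty_iff_ne_empty.2 hW.1), hc W]
    have := hF W hW.2
    calc (-1) ^ W.card * (y - 1) ^ W.card * g W * G.F s N q y W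
        = (-1) ^ W.card * g W * ((y - 1) ^ W.card * G.F s N q y W) := by ring
      _ = D * ((-1) ^ W.card * g W * T W) := by rw [this]; ring
  have hC2 : (q : ℤ) * ∑ W ∈ (N.erase u₀).powerset,
        (∏ u ∈ W, (1 - y ^ (G.between s u).card)) * G.F s N q y (insert u₀ W)
      = ∑ W ∈ N.powerset, if u₀ ∈ W then
          D * ((x - 1) * ((-1) ^ (W.card + 1) * g (W.erase u₀)) * T W) else 0 := by
    have h1 : N.powerset = (insert u₀ (N.erase u₀)).powerset := by rw [Finset.insert_erase hu₀]
    rw [h1, Finset.sum_powerset_insert (Finset.notMem_erase u₀ N), Finset.mul_sum]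
    have h2 : ∑ W ∈ (N.erase u₀).powerset, (if u₀ ∈ W then
          D * ((x - 1) * ((-1) ^ (W.card + 1) * g (W.erase u₀)) * T W) else 0) = 0 := by
      refine Finset.sum_eq_zero fun W hW => if_neg ?_
      intro hc
      exact absurd (Finset.mem_powerset.1 hW hc) (Finset.notMem_erase u₀ N)
    rw [h2, zero_add]
    refine Finset.sum_congr rfl fun W hW => ?_
    have hW' : u₀ ∉ W := fun hc =>
      absurd (Finset.mem_powerset.1 hW hc) (Finset.notMem_erase u₀ N)
    have hWN : insert u₀ W ⊆ N := by
      intro v hv
      rcases Finset.mem_insert.1 hv with h | h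
      · rw [h]; exact hu₀
      · exact Finset.erase_subset _ _ (Finset.mem_powerset.1 hW h)
    rw [if_pos (Finset.mem_insert_self _ _), Finset.erase_insert hW', hc W, hq,
      Finset.card_insert_of_notMem hW']
    have := hF _ hWN
    rw [Finset.card_insert_of_notMem hW'] at this
    calc (x - 1) * (y - 1) * ((-1) ^ W.card * (y - 1) ^ W.card * g W *
          G.F s N q y (insert u₀ W))
        = (x - 1) * (-1) ^ W.card * g W * ((y - 1) ^ (W.card + 1) *
          G.F s N q y (insert u₀ W)) := by ring
      _ = D * ((x - 1) * ((-1) ^ (W.card + 1 + 1) * g W) * T (insert u₀ W)) := by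
          rw [this]; ring
  rw [hC1, hC2, hZG] at hC
  -- conclude
  have hR : eval p (∑ W ∈ N.powerset with W.Nonempty,
      G.coeff s u₀ W * (G.contractAt s W).tutte)
      = (∑ W ∈ N.powerset, if u₀ ∈ W then
          ((x - 1) * ((-1) ^ (W.card + 1) * g (W.erase u₀)) * T W) else 0)
        - ∑ W ∈ N.powerset, if W.Nonempty then ((-1) ^ W.card * g W * T W) else 0 := by
    rw [map_sum, Finset.sum_filter, ← Finset.sum_sub_distrib]
    refine Finset.sum_congr rfl fun W _ => ?_
    by_cases hWn : W.Nonempty
    · rw [if_pos hWn, if_pos hWn, coeff]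
      by_cases hu : u₀ ∈ W
      · rw [if_pos hu, if_pos hu]
        simp only [map_mul, map_add, map_pow, map_neg, map_one, map_prod, map_sum, map_sub,
          eval_X, g, T, ← hx, ← hy]
        ring
      · rw [if_neg hu, if_neg hu]
        simp only [map_mul, map_add, map_pow, map_neg, map_one, map_prod, map_sum, map_zero,
          eval_X, g, T, ← hy]
        ring
    · rw [if_neg hWn, if_neg hWn, if_neg, sub_zero]
      exact fun hc => hWn ⟨u₀, hc⟩
  rw [hR]
  apply mul_left_cancel₀ hD0
  rw [mul_sub, Finset.mul_sum, Finset.mul_sum]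
  simp only [mul_ite, mul_zero]
  linarith

end Multigraph

open Multigraph in
/-- **Main theorem.** For every finite connected multigraph `G` with at least two vertices and
every vertex `s` with neighbourhood `N`, the Tutte polynomial of `G` is a combination
`T_G = ∑_{∅ ≠ W ⊆ N} P_W T_{G_W}` in `ℚ[x,y]`, and the `P_W` can be taken in `ℤ[x,y]`. -/
theorem result {V : Type u} {E : Type w} [Fintype V] [Fintype E] (G : Multigraph V E)
    (hconn : (G.spanning Finset.univ).Connected) (hcard : 2 ≤ Fintype.card V) (s : V) :
    ∃ P : Finset V → MvPolynomial (Fin 2) ℤ,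
      map (Int.castRingHom ℚ) G.tutte = ∑ W ∈ (G.nbrs s).powerset with W.Nonempty,
        map (Int.castRingHom ℚ) (P W) * map (Int.castRingHom ℚ) (G.contractAt s W).tutte := by
  -- `s` has a neighbour
  obtain ⟨u₀, hu₀⟩ : ∃ u₀, u₀ ∈ G.nbrs s := by
    have : Nontrivial V := Fintype.one_lt_card_iff_nontrivial.1 (by omega)
    obtain ⟨v, hv⟩ := hconn.preconnected.exists_adj_of_nontrivial s
    rw [spanning_adj] at hv
    obtain ⟨⟨e, -, he⟩, hne⟩ := hv
    exact ⟨v, (G.mem_nbrs s v).2 ⟨hne.symm, e, he⟩⟩
  refine ⟨G.coeff s u₀, ?_⟩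
  simp only [← map_mul, ← map_sum]
  congr 1
  refine funext_set (fun _ => Set.Ici 2) (fun _ => Set.Ici_infinite 2) ?_
  intro p hp
  have h0 : 2 ≤ p 0 := hp 0 (Set.mem_univ _)
  have h1 : 2 ≤ p 1 := hp 1 (Set.mem_univ _)
  exact G.eval_identity hconn s u₀ hu₀ p h0 h1

end Pool.Agent.Results.MP_8e541a_co.TutteNeighbourhood
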